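import Mathlib

set_option autoImplicit false

namespace Pool.Agent.Work.MP_6b14a3_ag

open Polynomial

noncomputable def dcoef {K : Type*} [Field K] [CharZero K] (D : Derivation ℚ K K) :
    Derivation ℚ K[X] K[X] :=
  PolynomialModule.equivPolynomialSelf.compDer D.mapCoeffs

theorem coeff_dcoef {K : Type*} [Field K] [CharZero K] (D : Derivation ℚ K K) (p : K[X]) (i : ℕ) :
    (dcoef D p).coeff i = D (p.coeff i) := rfl

theorem natDegree_dcoef {K : Type*} [Field K] [CharZero K] (D : Derivation ℚ K K) (p : K[X]) :
    (dcoef D p).natDegree ≤ p.natDegree := by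
  rw [natDegree_le_iff_coeff_eq_zero]
  intro k hk
  rw [coeff_dcoef, coeff_eq_zero_of_natDegree_lt hk, map_zero]

theorem natDegree_det_le {K : Type*} [Field K] {k : ℕ} (A : Matrix (Fin k) (Fin k) K[X])
    (r : Fin k → ℕ) (hA : ∀ i j, (A i j).natDegree ≤ r i) :
    A.det.natDegree ≤ ∑ i, r i := by
  rw [← Matrix.det_transpose, Matrix.det_apply]
  refine natDegree_sum_le_of_forall_le _ _ fun σ _ => ?_
  refine (natDegree_smul_le _ _).trans ?_
  refine (natDegree_prod_le _ _).trans ?_
  refine Finset.sum_le_sum fun i _ => ?_
  exact hA _ _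

/-- key: a matrix whose product with `u` is `e_0` and with small row degrees is singular -/
theorem det_eq_zero_of_degree {K : Type*} [Field K] {n : ℕ}
    (A : Matrix (Fin (n + 1)) (Fin (n + 1)) K[X]) (u : Fin (n + 1) → K[X])
    (hu : A.mulVec u = Pi.single 0 1) (m : ℕ) (j : Fin n)
    (hj : ∀ i, (A j.succ i).natDegree + 1 ≤ m)
    (hA : ∀ k i, (A (Fin.succ k) i).natDegree ≤ m) (i₀ : Fin (n + 1))
    (hi₀ : u i₀ ≠ 0) (hdeg : (u i₀).natDegree = n * m) :
    A.det = 0 := by
  classical
  by_contra hdet
  have h1 : A.det • u = A.adjugate.mulVec (Pi.single 0 1) := by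
    rw [← hu, Matrix.mulVec_mulVec, Matrix.adjugate_mul, Matrix.smul_mulVec, Matrix.one_mulVec]
  have h2 : A.det * u i₀ = (A.updateRow 0 (Pi.single i₀ 1)).det := by
    have := congrFun h1 i₀
    rw [Pi.smul_apply, smul_eq_mul] at this
    rw [this, Matrix.mulVec_single_one, Matrix.col_apply, Matrix.adjugate_apply]
  have h3 : (A.det * u i₀).natDegree = A.det.natDegree + n * m := by
    rw [natDegree_mul hdet hi₀, hdeg]
  let r : Fin (n + 1) → ℕ := Fin.cons 0 (fun k => if k = j then m - 1 else m)
  have h4 : (A.updateRow 0 (Pi.single i₀ 1)).det.natDegree ≤ ∑ i, r i := by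
    apply natDegree_det_le
    intro i k
    refine Fin.cases ?_ (fun i' => ?_) i
    · rw [Matrix.updateRow_self]
      simp only [r, Fin.cons_zero]
      by_cases hk : k = i₀
      · subst hk; simp
      · simp [hk]
    · rw [Matrix.updateRow_ne (Fin.succ_ne_zero i')]
      simp only [r, Fin.cons_succ]
      split_ifs with hij
      · subst hij
        have := hj k
        omega
      · exact hA i' k
  have hm : 1 ≤ m := le_trans (Nat.le_add_left 1 _) (hj i₀)
  have h5 : ∑ i, r i + 1 = n * m := by
    rw [Fin.sum_univ_succ]
    simp only [r, Fin.cons_zero, Fin.cons_succ, zero_add]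
    have : ∑ k : Fin n, ((if k = j then m - 1 else m) + (if k = j then 1 else 0)) = n * m := by
      have : ∀ k : Fin n, (if k = j then m - 1 else m) + (if k = j then 1 else 0) = m := by
        intro k; split_ifs <;> omega
      simp [this]
    rw [Finset.sum_add_distrib] at this
    simpa using this
  rw [← h2, h3] at h4
  omega

theorem eq_C_of_generic {K : Type*} [Field K] [CharZero K] (n : ℕ)
    (P : Fin (n + 1) → K) (D : Fin n → Derivation ℚ K K)
    (hD : ∀ i j : Fin n, D j (P i.castSucc) = if i = j then 1 else 0)
    (f : Fin (n + 1) → K[X]) (hf0 : ∀ i, (f i).coeff 0 = P i)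
    (hsum : ∑ i, f i ^ (n + 1) = 1) (i : Fin (n + 1)) : f i = C (P i) := by
  classical
  -- degree
  obtain ⟨i₀, hi₀⟩ := Finite.exists_max (fun i => (f i).natDegree)
  set m := (f i₀).natDegree with hm
  by_cases hm0 : m = 0
  · have : (f i).natDegree = 0 := by
      have := hi₀ i
      omega
    rw [eq_C_of_natDegree_eq_zero this, hf0]
  have hm1 : 1 ≤ m := Nat.one_le_iff_ne_zero.2 hm0
  let u : Fin (n + 1) → K[X] := fun i => f i ^ n
  let f' : Fin (n + 1) → K[X] := fun i => derivative (f i)
  have hu_f : ∑ i, f i * u i = 1 := by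
    rw [← hsum]
    refine Finset.sum_congr rfl fun i _ => ?_
    simp only [u]; ring
  have hu_f' : ∑ i, f' i * u i = 0 := by
    have h := congrArg derivative hsum
    rw [derivative_sum, derivative_one] at h
    simp only [derivative_pow_succ] at h
    have h2 : ((n + 1 : K) : K) ≠ 0 := by exact_mod_cast Nat.succ_ne_zero n
    have h3 : C ((n : K) + 1) * ∑ i, f' i * u i = 0 := by
      rw [← h, Finset.mul_sum]
      refine Finset.sum_congr rfl fun i _ => ?_
      simp only [f', u]; ring
    rcases mul_eq_zero.1 h3 with h4 | h4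
    · exact absurd (C_eq_zero.1 h4) h2
    · exact h4
  have hu_D : ∀ j, ∑ i, dcoef (D j) (f i) * u i = 0 := by
    intro j
    have h := congrArg (dcoef (D j)) hsum
    rw [map_sum, Derivation.map_one_eq_zero] at h
    simp only [Derivation.leibniz_pow] at h
    have h2 : ((n + 1 : ℕ) : K[X]) ≠ 0 := by exact_mod_cast Nat.succ_ne_zero n
    have h3 : ((n + 1 : ℕ) : K[X]) * ∑ i, dcoef (D j) (f i) * u i = 0 := by
      rw [← h, Finset.mul_sum]
      refine Finset.sum_congr rfl fun i _ => ?_
      simp only [u, smul_eq_mul, nsmul_eq_mul, Nat.add_sub_cancel]; ring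
    rcases mul_eq_zero.1 h3 with h4 | h4
    · exact absurd h4 h2
    · exact h4
  let B : Matrix (Fin (n + 1)) (Fin (n + 1)) K[X] :=
    Matrix.of (Fin.cons f (fun j i => dcoef (D j) (f i)))
  have hB0 : ∀ i, B 0 i = f i := fun i => rfl
  have hBs : ∀ (j : Fin n) i, B j.succ i = dcoef (D j) (f i) := fun j i => rfl
  have hudeg : (u i₀).natDegree = n * m := by
    simp only [u]; rw [natDegree_pow]
  have hfi₀ : f i₀ ≠ 0 := by
    intro h
    rw [h] at hm
    simp at hm
    omega
  have hu₀ : u i₀ ≠ 0 := pow_ne_zero _ hfi₀
  -- Cramer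
  have hcr : ∀ k, (B.updateRow k f').det = 0 := by
    intro k
    refine Fin.cases ?_ (fun j => ?_) k
    · -- all rows orthogonal to u
      apply Matrix.exists_mulVec_eq_zero_iff.1
      refine ⟨u, fun h => hu₀ (by rw [h]; rfl), ?_⟩
      funext l
      refine Fin.cases ?_ (fun l' => ?_) l
      · simp only [Matrix.mulVec, dotProduct, Matrix.updateRow_self, Pi.zero_apply]
        exact hu_f'
      · simp only [Matrix.mulVec, dotProduct, Matrix.updateRow_ne (Fin.succ_ne_zero l'),
          Pi.zero_apply]
        exact hu_D l'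
    · apply det_eq_zero_of_degree _ u ?_ m j ?_ ?_ i₀ hu₀ hudeg
      · funext l
        refine Fin.cases ?_ (fun l' => ?_) l
        · simp only [Matrix.mulVec, dotProduct, Matrix.updateRow_ne (Fin.succ_ne_zero j).symm,
            Pi.single_eq_same]
          exact hu_f
        · rw [Pi.single_eq_of_ne (Fin.succ_ne_zero l')]
          by_cases hl : l' = j
          · subst hl
            simp only [Matrix.mulVec, dotProduct, Matrix.updateRow_self]
            exact hu_f'
          · have : l'.succ ≠ j.succ := fun h => hl (Fin.succ_injective _ h)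
            simp only [Matrix.mulVec, dotProduct, Matrix.updateRow_ne this]
            exact hu_D l'
      · intro i
        rw [Matrix.updateRow_self]
        simp only [f']
        by_cases h0 : (f i).natDegree = 0
        · rw [eq_C_of_natDegree_eq_zero h0]
          simpa using hm1
        · have := natDegree_derivative_lt h0
          have := hi₀ i
          omega
      · intro k i
        by_cases hk : k = j
        · subst hk
          rw [Matrix.updateRow_self]
          exact (natDegree_derivative_le _).trans ((Nat.sub_le _ _).trans (hi₀ i))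
        · have : k.succ ≠ j.succ := fun h => hk (Fin.succ_injective _ h)
          rw [Matrix.updateRow_ne this, hBs]
          exact (natDegree_dcoef _ _).trans (hi₀ i)
  have hmul : B.det • f' = 0 := by
    have h := Matrix.mulVec_cramer B.transpose f'
    rw [Matrix.det_transpose] at h
    rw [← h]
    have : B.transpose.cramer f' = 0 := by
      funext k
      rw [Matrix.cramer_transpose_apply, hcr k]; rfl
    rw [this, Matrix.mulVec_zero]
  -- det B ≠ 0
  have hdetB : B.det ≠ 0 := by
    intro hz
    let B0 : Matrix (Fin (n + 1)) (Fin (n + 1)) K := B.map (eval 0)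
    have hB0det : B0.det = 0 := by
      have := (RingHom.map_det (evalRingHom (0 : K)) B)
      rw [hz, map_zero] at this
      exact this.symm
    obtain ⟨v, hv, hv0⟩ := Matrix.exists_vecMul_eq_zero_iff.2 hB0det
    have hev : ∀ p : K[X], eval 0 p = p.coeff 0 := fun p => (coeff_zero_eq_eval_zero p).symm
    have hrow0 : ∀ i, B0 0 i = P i := by
      intro i
      simp only [B0, Matrix.map_apply, hB0]
      rw [hev, hf0]
    have hrows : ∀ (j : Fin n) i, B0 j.succ i = D j (P i) := by
      intro j i
      simp only [B0, Matrix.map_apply, hBs]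
      rw [hev, coeff_dcoef, hf0]
    have hw : ∀ i, v 0 * P i + ∑ j : Fin n, v j.succ * D j (P i) = 0 := by
      intro i
      have := congrFun hv0 i
      simp only [Matrix.vecMul, dotProduct, Fin.sum_univ_succ, hrow0, hrows, Pi.zero_apply] at this
      exact this
    -- pairing with u at 0
    have hv00 : v 0 = 0 := by
      have hPu : ∑ i, P i * P i ^ n = 1 := by
        have := congrArg (eval 0) hu_f
        rw [eval_finsetSum, eval_one] at this
        simp only [u, eval_mul, eval_pow] at this
        simp only [hev, hf0] at this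
        exact this
      have hDu : ∀ j, ∑ i, D j (P i) * P i ^ n = 0 := by
        intro j
        have := congrArg (eval 0) (hu_D j)
        rw [eval_finsetSum, eval_zero] at this
        simp only [u, eval_mul, eval_pow] at this
        simp only [hev, hf0, coeff_dcoef] at this
        exact this
      have h1 : ∑ i, (v 0 * P i + ∑ j : Fin n, v j.succ * D j (P i)) * P i ^ n = 0 := by
        simp [hw]
      have h2 : ∑ i, (v 0 * P i + ∑ j : Fin n, v j.succ * D j (P i)) * P i ^ n
          = v 0 * ∑ i, P i * P i ^ n + ∑ j : Fin n, v j.succ * ∑ i, D j (P i) * P i ^ n := by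
        simp only [add_mul, Finset.sum_add_distrib, Finset.sum_mul, Finset.mul_sum, mul_assoc]
        congr 1
        exact Finset.sum_comm
      rw [h2, hPu] at h1
      simp only [hDu, mul_zero, Finset.sum_const_zero, mul_one, add_zero] at h1
      exact h1
    apply hv
    funext k
    refine Fin.cases hv00 (fun j => ?_) k
    have := hw j.castSucc
    rw [hv00, zero_mul, zero_add] at this
    simp only [hD] at this
    simpa using this
  have hf'0 : f' = 0 := by
    rcases smul_eq_zero.1 hmul with h | h
    · exact absurd h hdetB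
    · exact h
  have : derivative (f i) = 0 := congrFun hf'0 i
  have h0 := derivative_eq_zero.1 this
  rw [eq_C_of_natDegree_eq_zero h0, hf0]

end Pool.Agent.Work.MP_6b14a3_ag
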