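import Mathlib

set_option autoImplicit false

namespace Pool.Agent.Work.MP_6b14a3_ag

open MvPolynomial TensorProduct

theorem exists_derivation {ι : Type} (x : ι → ℂ) (hx : IsTranscendenceBasis ℚ x) (v : ι → ℂ) :
    ∃ D : Derivation ℚ ℂ ℂ, ∀ i, D (x i) = v i := by
  classical
  let A := MvPolynomial ι ℚ
  let algA : Algebra A ℂ := (aeval x : A →ₐ[ℚ] ℂ).toRingHom.toAlgebra
  have hmap : ∀ a : A, algebraMap A ℂ a = aeval x a := fun a => rfl
  have : IsScalarTower ℚ A ℂ := IsScalarTower.of_algebraMap_eq (fun q => by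
    rw [hmap, AlgHom.commutes])
  have hinj : Function.Injective (algebraMap A ℂ) := hx.1
  have : FaithfulSMul A ℂ := (faithfulSMul_iff_algebraMap_injective A ℂ).2 hinj
  let K₀ := FractionRing A
  let algK : Algebra K₀ ℂ := FractionRing.liftAlgebra A ℂ
  have : IsScalarTower A K₀ ℂ := FractionRing.isScalarTower_liftAlgebra A ℂ
  have : Algebra.IsAlgebraic A ℂ := by
    have h1 : Algebra.IsAlgebraic (Algebra.adjoin ℚ (Set.range x)) ℂ := hx.isAlgebraic
    refine Algebra.IsAlgebraic.of_ringHom_of_comp_eq (hx.1.aevalEquiv : _ ≃ₐ[ℚ] _).toRingEquiv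
      (RingHom.id ℂ) (RingEquiv.surjective _) Function.injective_id ?_
    ext a
    · simp
    · have h3 := hx.1.algebraMap_aevalEquiv (X a)
      exact h3
  have : Algebra.IsAlgebraic K₀ ℂ :=
    IsFractionRing.comap_isAlgebraic_iff (A := A) (K := K₀) (C := ℂ) |>.1 inferInstance
  have : Algebra.FormallyEtale K₀ ℂ := Algebra.FormallyEtale.of_isSeparable K₀ ℂ
  have : Algebra.FormallyEtale A K₀ := Algebra.FormallyEtale.of_isLocalization (nonZeroDivisors A)
  have : Algebra.FormallyEtale A ℂ := Algebra.FormallyEtale.comp A K₀ ℂ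
  let d : Derivation ℚ A ℂ := mkDerivation ℚ v
  let L : ℂ ⊗[A] Ω[A⁄ℚ] →ₗ[ℂ] ℂ := LinearMap.liftBaseChange ℂ d.liftKaehlerDifferential
  let e := KaehlerDifferential.tensorKaehlerEquivOfFormallyEtale ℚ A ℂ
  refine ⟨(L ∘ₗ e.symm.toLinearMap).compDer (KaehlerDifferential.D ℚ ℂ), fun i => ?_⟩
  have h := KaehlerDifferential.tensorKaehlerEquivOfFormallyEtale_symm_D_algebraMap ℚ A ℂ (X i)
  have hX : algebraMap A ℂ (X i) = x i := by rw [hmap]; simp
  rw [hX] at h
  change L (e.symm (KaehlerDifferential.D ℚ ℂ (x i))) = v i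
  rw [h]
  have h4 : d (X i) = v i := mkDerivation_X ℚ v i
  simpa [L] using h4

theorem exists_generic (n : ℕ) (c : ℂ) : ∃ (P : Fin (n + 1) → ℂ) (D : Fin n → Derivation ℚ ℂ ℂ),
    (∑ i, P i ^ (n + 1) = c) ∧ ∀ i j : Fin n, D j (P i.castSucc) = if i = j then 1 else 0 := by
  classical
  obtain ⟨s, hs⟩ := exists_isTranscendenceBasis ℚ ℂ
  have hcard : Cardinal.mk ℂ = Cardinal.mk s := by
    apply IsAlgClosed.cardinal_eq_cardinal_transcendence_basis_of_aleph0_lt' _ hs
    · simp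
    · rw [Cardinal.mk_complex]; exact Cardinal.aleph0_lt_continuum
  have hinf : Infinite s := by
    rw [Cardinal.infinite_iff, ← hcard, Cardinal.mk_complex]
    exact Cardinal.aleph0_lt_continuum.le
  let φ : ℕ ↪ s := Infinite.natEmbedding s
  let P₀ : Fin n → ℂ := fun i => (φ i : ℂ)
  obtain ⟨z, hz⟩ := IsAlgClosed.exists_pow_nat_eq (c - ∑ i, P₀ i ^ (n + 1)) (Nat.succ_pos n)
  have hD : ∀ j : Fin n, ∃ D : Derivation ℚ ℂ ℂ, ∀ i : Fin n, D (P₀ i) = if i = j then 1 else 0 := by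
    intro j
    obtain ⟨D, hD⟩ := exists_derivation _ hs (fun t => if t = φ j then 1 else 0)
    refine ⟨D, fun i => ?_⟩
    have := hD (φ i)
    simp only [P₀]
    rw [this]
    by_cases hij : i = j
    · simp [hij]
    · have : φ (i : ℕ) ≠ φ (j : ℕ) := fun h => hij (Fin.ext (φ.injective h))
      rw [if_neg this, if_neg hij]
  choose D hD using hD
  refine ⟨Fin.snoc P₀ z, D, ?_, ?_⟩
  · rw [Fin.sum_univ_castSucc]
    simp only [Fin.snoc_castSucc, Fin.snoc_last]
    rw [hz]; ring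
  · intro i j
    rw [Fin.snoc_castSucc]
    exact hD j i

end Pool.Agent.Work.MP_6b14a3_ag
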