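import Pool.Agent.Work.MP_6b14a3_ag.Krull
import Pool.Agent.Work.MP_6b14a3_ag.Deriv
import Pool.Agent.Work.MP_6b14a3_ag.Curve

set_option autoImplicit false

namespace Pool.Agent.Work.MP_6b14a3_ag

open Polynomial

theorem exists_sum_pow_of_coeff_one (n e : ℕ) (F : ℂ[X]) (hF0 : F.coeff 0 = 1)
    (hF : F.natDegree ≤ (n + 1) * e) :
    ∃ g : Fin (n + 1) → ℂ[X], (∀ i, (g i).natDegree ≤ e) ∧ ∑ i, g i ^ (n + 1) = F := by
  classical
  obtain ⟨P, D, hP, hD⟩ := exists_generic n 1
  let σ := Option (Fin (n + 1) × Fin e)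
  let 𝓕 : Fin (n + 1) → (MvPolynomial σ ℂ)[X] := fun i =>
    C (MvPolynomial.C (P i)) + ∑ j : Fin e, C (MvPolynomial.X (some (i, j))) * X ^ ((j : ℕ) + 1)
  let 𝓖 : (MvPolynomial σ ℂ)[X] := (F.map MvPolynomial.C).comp (C (MvPolynomial.X none) * X)
  let h : Fin ((n + 1) * e) → MvPolynomial σ ℂ := fun k =>
    (∑ i, 𝓕 i ^ (n + 1) - 𝓖).coeff ((k : ℕ) + 1)
  let fx : (σ → ℂ) → Fin (n + 1) → ℂ[X] := fun x i =>
    C (P i) + ∑ j : Fin e, C (x (some (i, j))) * X ^ ((j : ℕ) + 1)
  have hfx : ∀ x i, (𝓕 i).map (MvPolynomial.eval x) = fx x i := by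
    intro x i
    simp only [𝓕, fx, Polynomial.map_add, Polynomial.map_sum, Polynomial.map_mul,
      Polynomial.map_pow, map_X, map_C, MvPolynomial.eval_C, MvPolynomial.eval_X]
  have hGx : ∀ x, 𝓖.map (MvPolynomial.eval x) = F.comp (C (x none) * X) := by
    intro x
    simp only [𝓖, Polynomial.map_comp, Polynomial.map_mul, map_X, map_C, MvPolynomial.eval_X,
      Polynomial.map_map]
    congr 1
    have : (MvPolynomial.eval x).comp (MvPolynomial.C : ℂ →+* MvPolynomial σ ℂ)
        = RingHom.id ℂ := by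
      ext z; simp
    rw [this, Polynomial.map_id]
  have hev : ∀ x k, MvPolynomial.eval x (h k) =
      (∑ i, fx x i ^ (n + 1) - F.comp (C (x none) * X)).coeff ((k : ℕ) + 1) := by
    intro x k
    simp only [h]
    rw [← Polynomial.coeff_map]
    simp only [Polynomial.map_sub, Polynomial.map_sum, Polynomial.map_pow, hfx, hGx]
  have hfdeg : ∀ x i, (fx x i).natDegree ≤ e := by
    intro x i
    simp only [fx]
    refine (natDegree_add_le _ _).trans (max_le (by simp) ?_)
    refine natDegree_sum_le_of_forall_le _ _ fun j _ => ?_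
    refine (natDegree_C_mul_X_pow_le _ _).trans ?_
    have := j.isLt
    omega
  have hfcoeff : ∀ x i (j : Fin e), (fx x i).coeff ((j : ℕ) + 1) = x (some (i, j)) := by
    intro x i j
    simp only [fx, coeff_add, finsetSum_coeff, coeff_C_mul, coeff_X_pow, coeff_C_succ, zero_add]
    rw [Finset.sum_eq_single j]
    · simp
    · intro b _ hb
      have : (j : ℕ) + 1 ≠ (b : ℕ) + 1 := fun h => hb (Fin.ext (by omega))
      rw [if_neg this, mul_zero]
    · simp
  have hfcoeff0 : ∀ x i, (fx x i).coeff 0 = P i := by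
    intro x i
    simp [fx]
  have hdiffdeg : ∀ x, (∑ i, fx x i ^ (n + 1) - F.comp (C (x none) * X)).natDegree
      ≤ (n + 1) * e := by
    intro x
    refine (natDegree_sub_le _ _).trans (max_le ?_ ?_)
    · refine natDegree_sum_le_of_forall_le _ _ fun i _ => ?_
      exact (natDegree_pow_le).trans (Nat.mul_le_mul_left _ (hfdeg x i))
    · refine natDegree_comp_le.trans ?_
      have : (C (x none) * X : ℂ[X]).natDegree ≤ 1 := by
        simpa using natDegree_C_mul_X_pow_le (x none) 1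
      calc F.natDegree * (C (x none) * X : ℂ[X]).natDegree ≤ F.natDegree * 1 :=
            Nat.mul_le_mul_left _ this
        _ ≤ _ := by rw [mul_one]; exact hF
  have hdiff0 : ∀ x, (∑ i, fx x i ^ (n + 1) - F.comp (C (x none) * X)).coeff 0 = 0 := by
    intro x
    rw [coeff_zero_eq_eval_zero, eval_sub, eval_finsetSum, eval_comp]
    simp only [eval_pow, ← coeff_zero_eq_eval_zero, hfcoeff0, hP]
    simp [← coeff_zero_eq_eval_zero, hF0]
  have hzero : ∀ x, (∀ k, MvPolynomial.eval x (h k) = 0) →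
      ∑ i, fx x i ^ (n + 1) = F.comp (C (x none) * X) := by
    intro x hx
    rw [← sub_eq_zero]
    ext k
    rw [coeff_zero]
    rcases Nat.eq_zero_or_pos k with rfl | hk
    · exact hdiff0 x
    · obtain ⟨k', rfl⟩ : ∃ k', k = k' + 1 := ⟨k - 1, by omega⟩
      by_cases hk' : k' < (n + 1) * e
      · have := hx ⟨k', hk'⟩
        rw [hev] at this
        exact this
      · apply coeff_eq_zero_of_natDegree_lt
        have := hdiffdeg x
        omega
  have hcard : Fintype.card (Fin ((n + 1) * e)) < Fintype.card σ := by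
    simp [σ]
  have h00 : ∀ k, MvPolynomial.aeval (0 : σ → ℂ) (h k) = 0 := by
    intro k
    have h1 : MvPolynomial.aeval (0 : σ → ℂ) (h k) = MvPolynomial.eval 0 (h k) := by
      rfl
    rw [h1, hev]
    have h2 : ∀ i, fx 0 i = C (P i) := by intro i; simp [fx]
    simp only [h2]
    simp only [← C_pow, Pi.zero_apply, C_0, zero_mul]
    rw [← map_sum, comp_zero, coeff_sub, coeff_C_succ, coeff_C_succ, sub_zero]
  obtain ⟨x, hx0, hx⟩ := exists_ne_common_zero hcard h 0 h00
  have hx' : ∀ k, MvPolynomial.eval x (h k) = 0 := fun k => hx k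
  have hsol := hzero x hx'
  have hs : x none ≠ 0 := by
    intro hs
    rw [hs, C_0, zero_mul, comp_zero, ← coeff_zero_eq_eval_zero, hF0, C_1] at hsol
    have hconst := eq_C_of_generic n P D hD (fx x) (hfcoeff0 x) hsol
    apply hx0
    funext t
    rcases t with _ | ⟨i, j⟩
    · exact hs
    · have := hfcoeff x i j
      rw [hconst i, coeff_C_succ] at this
      exact this.symm
  refine ⟨fun i => (fx x i).comp (C (x none)⁻¹ * X), fun i => ?_, ?_⟩
  · refine natDegree_comp_le.trans ?_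
    have : (C (x none)⁻¹ * X : ℂ[X]).natDegree ≤ 1 := by
      simpa using natDegree_C_mul_X_pow_le (x none)⁻¹ 1
    calc (fx x i).natDegree * (C (x none)⁻¹ * X : ℂ[X]).natDegree ≤ (fx x i).natDegree * 1 :=
          Nat.mul_le_mul_left _ this
      _ ≤ _ := by rw [mul_one]; exact hfdeg x i
  · have : ∀ i, (fx x i).comp (C (x none)⁻¹ * X) ^ (n + 1)
        = (fx x i ^ (n + 1)).comp (C (x none)⁻¹ * X) := by
      intro i; rw [pow_comp]
    simp only [this]
    rw [← Polynomial.sum_comp, hsol, comp_assoc]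
    have h5 : (C (x none) * X : ℂ[X]).comp (C (x none)⁻¹ * X) = X := by
      rw [mul_comp, C_comp, X_comp, ← mul_assoc, ← C_mul, mul_inv_cancel₀ hs, C_1, one_mul]
    rw [h5, comp_X]

theorem exists_sum_pow (d e : ℕ) (hd : 0 < d) (F : ℂ[X]) (hF0 : F.coeff 0 ≠ 0)
    (hF : F.natDegree ≤ d * e) :
    ∃ g : Fin d → ℂ[X], (∀ i, (g i).natDegree ≤ e) ∧ ∑ i, g i ^ d = F := by
  obtain ⟨n, rfl⟩ : ∃ n, d = n + 1 := ⟨d - 1, by omega⟩
  obtain ⟨r, hr⟩ := IsAlgClosed.exists_pow_nat_eq (F.coeff 0) (Nat.succ_pos n)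
  have h1 : (C (F.coeff 0)⁻¹ * F).coeff 0 = 1 := by
    rw [coeff_C_mul, inv_mul_cancel₀ hF0]
  have h2 : (C (F.coeff 0)⁻¹ * F).natDegree ≤ (n + 1) * e :=
    (natDegree_C_mul_le _ _).trans hF
  obtain ⟨g, hg, hgs⟩ := exists_sum_pow_of_coeff_one n e _ h1 h2
  refine ⟨fun i => C r * g i, fun i => (natDegree_C_mul_le _ _).trans (hg i), ?_⟩
  simp only [mul_pow]
  rw [← Finset.mul_sum, hgs, ← mul_assoc, ← C_pow, hr, ← C_mul, mul_inv_cancel₀ hF0, C_1, one_mul]

theorem shapiro (d e : ℕ) (hd : 0 < d) (f : MvPolynomial (Fin 2) ℂ)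
    (hf : f.IsHomogeneous (d * e)) :
    ∃ g : Fin d → MvPolynomial (Fin 2) ℂ, (∀ i, (g i).IsHomogeneous e) ∧ f = ∑ i, g i ^ d := by
  classical
  by_cases hf0 : f = 0
  · refine ⟨fun _ => 0, fun _ => MvPolynomial.isHomogeneous_zero _ _ _, ?_⟩
    rw [hf0]
    simp [hd.ne']
  -- dehomogenize
  let p : ℂ[X] := MvPolynomial.aeval ![X, 1] f
  have hpf : p.homogenize (d * e) = f := homogenize_eq_of_isHomogeneous hf rfl
  have hp0 : p ≠ 0 := by
    intro h
    apply hf0
    rw [← hpf, h, homogenize_zero]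
  have hpdeg : p.natDegree ≤ d * e := by
    simp only [p]
    rw [MvPolynomial.aeval_def, MvPolynomial.eval₂_eq']
    refine natDegree_sum_le_of_forall_le _ _ fun m hm => ?_
    have hdeg := hf (MvPolynomial.mem_support_iff.1 hm)
    rw [← C_eq_algebraMap]
    refine (natDegree_C_mul_le _ _).trans ?_
    rw [Fin.prod_univ_two]
    simp only [Matrix.cons_val_zero, Matrix.cons_val_one, one_pow, mul_one, natDegree_X_pow]
    have h3 : m 0 + m 1 = d * e := by
      have : m.weight 1 = m 0 + m 1 := by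
        simp [Finsupp.weight_apply, Finsupp.sum_fintype, Fin.sum_univ_two]
      rw [← this]; exact hdeg
    omega
  obtain ⟨b, hb⟩ : ∃ b, p.eval b ≠ 0 := by
    by_contra hcon
    push Not at hcon
    exact hp0 (Polynomial.funext fun r => by rw [hcon r, eval_zero])
  -- shift
  let q : ℂ[X] := p.comp (X + C b)
  have hq0 : q.coeff 0 ≠ 0 := by
    simp only [q]
    rw [coeff_zero_eq_eval_zero, eval_comp]
    simpa using hb
  have hqdeg : q.natDegree ≤ d * e := by
    simp only [q]
    rw [natDegree_comp, natDegree_X_add_C, mul_one]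
    exact hpdeg
  obtain ⟨g, hg, hgs⟩ := exists_sum_pow d e hd q hq0 hqdeg
  have hgs' : ∑ i, ((g i).comp (X - C b)) ^ d = p := by
    have : ∀ i, (g i).comp (X - C b) ^ d = (g i ^ d).comp (X - C b) := by
      intro i; rw [pow_comp]
    simp only [this]
    rw [← Polynomial.sum_comp, hgs]
    simp only [q]
    rw [comp_assoc]
    have h5 : (X + C b : ℂ[X]).comp (X - C b) = X := by
      rw [add_comp, X_comp, C_comp]; ring
    rw [h5, comp_X]
  have hgdeg : ∀ i, ((g i).comp (X - C b)).natDegree ≤ e := by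
    intro i
    rw [natDegree_comp, natDegree_X_sub_C, mul_one]
    exact hg i
  refine ⟨fun i => ((g i).comp (X - C b)).homogenize e, fun i => isHomogeneous_homogenize _, ?_⟩
  rw [← hpf, ← hgs']
  apply homogenize_eq_of_isHomogeneous
  · refine MvPolynomial.IsHomogeneous.sum _ _ _ fun i _ => ?_
    rw [mul_comm]
    exact (isHomogeneous_homogenize _).pow d
  · rw [map_sum]
    refine Finset.sum_congr rfl fun i _ => ?_
    rw [map_pow, aeval_homogenize_X_one _ (hgdeg i)]

end Pool.Agent.Work.MP_6b14a3_ag
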