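import Mathlib

set_option autoImplicit false

namespace Pool.Agent.Work.MP_6b14a3_ag

open MvPolynomial

theorem exists_ne_common_zero {K : Type*} [Field K] [IsAlgClosed K] {σ ι : Type*} [Fintype σ]
    [Fintype ι] (hcard : Fintype.card ι < Fintype.card σ) (h : ι → MvPolynomial σ K)
    (x₀ : σ → K) (h0 : ∀ j, aeval x₀ (h j) = 0) :
    ∃ x : σ → K, x ≠ x₀ ∧ ∀ j, aeval x (h j) = 0 := by
  classical
  by_contra hcon
  push Not at hcon
  -- dimension
  have hdim : ringKrullDim (MvPolynomial σ K) = (Fintype.card σ : ℕ) := by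
    rw [MvPolynomial.ringKrullDim_of_isNoetherianRing, ringKrullDim_eq_zero_of_field]
    simp
  have : FiniteRingKrullDim (MvPolynomial σ K) := by
    rw [finiteRingKrullDim_iff_ne_bot_and_top, hdim]
    constructor
    · exact WithBot.coe_ne_bot
    · intro hh
      have h5 : (((Fintype.card σ : ℕ) : ℕ∞) : WithBot ℕ∞) = ((⊤ : ℕ∞) : WithBot ℕ∞) := hh
      exact absurd (WithBot.coe_injective h5) (ENat.natCast_ne_top _)
  obtain ⟨M, hM, hMh⟩ := Ideal.exists_isMaximal_height (R := MvPolynomial σ K)
  obtain ⟨a, rfl⟩ := isMaximal_iff_eq_vanishingIdeal_singleton.1 hM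
  let g : ι → MvPolynomial σ K := fun j => aeval (fun i => X i + C (x₀ i - a i)) (h j)
  have hg : ∀ (y : σ → K) (j : ι), aeval y (g j) = aeval (fun i => y i + (x₀ i - a i)) (h j) := by
    intro y j
    simp only [g]
    rw [← AlgHom.comp_apply]
    congr 1
    ext i
    simp
  let I : Ideal (MvPolynomial σ K) := Ideal.span (Set.range g)
  have hzero : zeroLocus K I = {a} := by
    ext y
    simp only [mem_zeroLocus_iff, Set.mem_singleton_iff]
    constructor
    · intro hy
      by_contra hne
      have hne' : (fun i => y i + (x₀ i - a i)) ≠ x₀ := by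
        intro hh
        apply hne
        funext i
        have := congrFun hh i
        linear_combination this
      obtain ⟨j, hj⟩ := hcon _ hne'
      apply hj
      rw [← hg]
      exact hy _ (Ideal.subset_span ⟨j, rfl⟩)
    · rintro rfl p hp
      have hle : I ≤ vanishingIdeal K {y} := by
        rw [Ideal.span_le]
        rintro _ ⟨j, rfl⟩
        rw [SetLike.mem_coe, mem_vanishingIdeal_singleton_iff, hg]
        simpa using h0 j
      exact (mem_vanishingIdeal_singleton_iff y p).1 (hle hp)
  have hrad : I.radical = vanishingIdeal K {a} := by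
    rw [← hzero, vanishingIdeal_zeroLocus_eq_radical]
  have hmin : vanishingIdeal K {a} ∈ I.minimalPrimes := by
    rw [← Ideal.radical_minimalPrimes, hrad]
    have := hM.isPrime
    simp [Ideal.minimalPrimes_eq_subsingleton_self]
  have hle := Ideal.height_le_card_of_mem_minimalPrimes_span (Set.finite_range g) hmin
  have h1 : (Set.range g).ncard ≤ Fintype.card ι := by
    rw [← Set.image_univ]
    refine (Set.ncard_image_le Set.finite_univ).trans ?_
    rw [Set.ncard_univ, Nat.card_eq_fintype_card]
  have h2 : ((vanishingIdeal K {a} : Ideal (MvPolynomial σ K)).height : WithBot ℕ∞)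
      ≤ ((Fintype.card ι : ℕ) : WithBot ℕ∞) := by
    have : (vanishingIdeal K {a} : Ideal (MvPolynomial σ K)).height ≤ ((Fintype.card ι : ℕ) : ℕ∞) :=
      hle.trans (by exact_mod_cast h1)
    exact_mod_cast WithBot.coe_le_coe.2 this
  rw [hMh, hdim] at h2
  have h3 : Fintype.card σ ≤ Fintype.card ι := by exact_mod_cast h2
  omega

end Pool.Agent.Work.MP_6b14a3_ag
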